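import Mathlib

set_option autoImplicit false

namespace Pool.Agent.H.MP_092669_al

abbrev X := Fin 5
abbrev T := List X
abbrev PT := Equiv.Perm T

/-- letters: 0 = a, 1 = b, 2 = inverse of b, 3 and 4 trivial letters of the two types -/
abbrev Lt := Fin 5
abbrev Wd := List Lt

def pl : Lt → X → X :=
  ![![1, 0, 3, 2, 4], ![2, 1, 4, 3, 0], ![4, 1, 0, 3, 2], ![0, 1, 2, 3, 4], ![0, 1, 2, 3, 4]]
def iv : Lt → Lt := ![0, 2, 1, 3, 4]
def ty : Lt → Bool := ![false, true, true, false, true]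
def pt : Bool → X
  | false => 4
  | true => 1
def triv : Lt → Bool := ![false, false, false, true, true]
def mu : Lt → Lt → Lt :=
  ![![3, 0, 0, 0, 0], ![0, 2, 4, 0, 1], ![0, 4, 1, 0, 2], ![0, 0, 0, 3, 0], ![0, 1, 2, 0, 4]]

lemma pl_iv : ∀ l x, pl l (pl (iv l) x) = x := by decide
lemma iv_pl : ∀ l x, pl (iv l) (pl l x) = x := by decide
lemma ty_iv : ∀ l, ty (iv l) = ty l := by decide
lemma pl_pt : ∀ l, pl l (pt (ty l)) = pt (ty l) := by decide
lemma pl_mu : ∀ l h, ty h = ty l → ∀ x, pl (mu l h) x = pl l (pl h x) := by decide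
lemma ty_mu : ∀ l h, ty h = ty l → ty (mu l h) = ty l := by decide
lemma pl_triv : ∀ l, triv l = true → ∀ x, pl l x = x := by decide

def dirF (p : X) (f : X → X) : T → T
  | [] => []
  | x :: w => f x :: (if x = p then dirF p f w else w)

lemma dirF_comp (p : X) (f g : X → X) (hg : ∀ x, g x = p ↔ x = p) (w : T) :
    dirF p f (dirF p g w) = dirF p (fun x => f (g x)) w := by
  induction w with
  | nil => rfl
  | cons x w ih =>
    by_cases h : x = p
    · have := (hg x).2 h
      simp only [dirF, if_pos this, if_pos h, ih]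
    · have : ¬ g x = p := fun h' => h ((hg x).1 h')
      simp [dirF, h, this]

lemma dirF_id (p : X) (f : X → X) (hf : ∀ x, f x = x) (w : T) : dirF p f w = w := by
  induction w with
  | nil => rfl
  | cons x w ih => simp [dirF, hf, ih]

lemma pl_eq_pt : ∀ l x, pl l x = pt (ty l) ↔ x = pt (ty l) := by decide

def el (l : Lt) : PT where
  toFun := dirF (pt (ty l)) (pl l)
  invFun := dirF (pt (ty l)) (pl (iv l))
  left_inv w := by rw [dirF_comp _ _ _ (pl_eq_pt l), dirF_id _ _ (iv_pl l)]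
  right_inv w := by
    rw [dirF_comp _ _ _ (by have := pl_eq_pt (iv l); rwa [ty_iv] at this), dirF_id _ _ (pl_iv l)]

lemma el_nil (l : Lt) : el l [] = [] := rfl

lemma el_cons (l : Lt) (x : X) (w : T) :
    el l (x :: w) = pl l x :: (if x = pt (ty l) then el l w else w) := rfl

lemma el_triv (l : Lt) (h : triv l = true) : el l = 1 :=
  Equiv.ext fun w => dirF_id _ _ (pl_triv l h) w

lemma el_mu (l h : Lt) (e : ty h = ty l) : el (mu l h) = el l * el h := by
  refine Equiv.ext fun w => ?_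
  show dirF (pt (ty (mu l h))) (pl (mu l h)) w = dirF (pt (ty l)) (pl l) (dirF (pt (ty h)) (pl h) w)
  rw [ty_mu l h e, ← e, dirF_comp _ _ _ (pl_eq_pt h)]
  have : pl (mu l h) = fun x => pl l (pl h x) := funext (pl_mu l h e)
  rw [this]

lemma el_iv (l : Lt) : el (iv l) = (el l)⁻¹ := by
  refine Equiv.ext fun w => ?_
  show dirF (pt (ty (iv l))) (pl (iv l)) w = dirF (pt (ty l)) (pl (iv l)) w
  rw [ty_iv]

def ev (w : Wd) : PT := (w.map el).prod

lemma ev_nil : ev [] = 1 := rfl
lemma ev_cons (l : Lt) (w : Wd) : ev (l :: w) = el l * ev w := by simp [ev]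
lemma ev_append (u w : Wd) : ev (u ++ w) = ev u * ev w := by simp [ev]

def top : Wd → X → X
  | [], x => x
  | l :: w, x => pl l (top w x)

def push (l : Lt) : Wd → Wd
  | [] => [l]
  | h :: u => if ty h = ty l then mu l h :: u else l :: h :: u

def sec : Wd → X → Wd
  | [], _ => [4]
  | l :: w, x => if triv l = true then sec w x
      else if top w x = pt (ty l) then push l (sec w x) else sec w x

lemma ev_push (l : Lt) (u : Wd) : ev (push l u) = el l * ev u := by
  rcases u with _ | ⟨h, u⟩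
  · simp [push, ev]
  · simp only [push]
    split_ifs with e
    · rw [ev_cons, ev_cons, el_mu l h e, mul_assoc]
    · rw [ev_cons]

lemma ev_apply_nil (w : Wd) : ev w [] = [] := by
  induction w with
  | nil => rfl
  | cons l w ih => rw [ev_cons, Equiv.Perm.mul_apply, ih, el_nil]

lemma ev_apply (w : Wd) (x : X) (v : T) : ev w (x :: v) = top w x :: ev (sec w x) v := by
  induction w with
  | nil => simp [ev, top, sec, el_triv 4 rfl]
  | cons l w ih =>
    rw [ev_cons, Equiv.Perm.mul_apply, ih]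
    simp only [sec, top]
    split_ifs with h1 h2
    · rw [el_triv l h1, pl_triv l h1]; rfl
    · rw [el_cons, if_pos h2, ev_push]; rfl
    · rw [el_cons, if_neg h2]

def redc (l : Lt) : Wd → Wd
  | [] => if triv l = true then [] else [l]
  | h :: u => if ty h = ty l then (if triv (mu l h) = true then u else mu l h :: u)
      else if triv l = true then h :: u else l :: h :: u

def red : Wd → Wd
  | [] => []
  | l :: w => redc l (red w)

lemma ev_red (w : Wd) : ev (red w) = ev w := by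
  induction w with
  | nil => rfl
  | cons l w ih =>
    rw [ev_cons, ← ih, red]
    generalize red w = u
    rcases u with _ | ⟨h, u⟩
    · simp only [redc]
      split_ifs with e
      · rw [el_triv l e, one_mul]
      · rw [ev_cons]
    · simp only [redc]
      split_ifs with e1 e2 e3
      · rw [ev_cons, ← mul_assoc, ← el_mu l h e1, el_triv _ e2, one_mul]
      · rw [ev_cons, ev_cons, el_mu l h e1, mul_assoc]
      · rw [el_triv l e3, one_mul]
      · rw [ev_cons]

/-! The group `W`. -/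

def InW (g : PT) : Prop :=
  g [] = [] ∧ ∀ v : T, ∃ π ∈ alternatingGroup X, ∀ x, g (v ++ [x]) = g v ++ [π x]

def WW : Subgroup PT where
  carrier := {g | InW g}
  one_mem' := ⟨rfl, fun _ => ⟨1, one_mem _, fun _ => rfl⟩⟩
  mul_mem' := by
    rintro g h ⟨g0, hg⟩ ⟨h0, hh⟩
    refine ⟨by rw [Equiv.Perm.mul_apply, h0, g0], fun v => ?_⟩
    obtain ⟨π, h1, h2⟩ := hh v
    obtain ⟨ρ, h3, h4⟩ := hg (h v)
    exact ⟨ρ * π, mul_mem h3 h1, fun x => by simp only [Equiv.Perm.mul_apply, h2, h4]⟩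
  inv_mem' := by
    rintro g ⟨g0, hg⟩
    refine ⟨by rw [Equiv.Perm.inv_eq_iff_eq, g0], fun v => ?_⟩
    obtain ⟨π, h1, h2⟩ := hg (g⁻¹ v)
    refine ⟨π⁻¹, inv_mem h1, fun x => ?_⟩
    rw [Equiv.Perm.inv_eq_iff_eq, h2]; simp

def pe (l : Lt) : Equiv.Perm X := ⟨pl l, pl (iv l), iv_pl l, pl_iv l⟩

lemma pe_mem (l : Lt) : pe l ∈ alternatingGroup X := by
  rw [Equiv.Perm.mem_alternatingGroup]
  revert l; decide

lemma el_mem (l : Lt) : el l ∈ WW := by
  refine ⟨rfl, fun v => ?_⟩
  induction v with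
  | nil =>
    refine ⟨pe l, pe_mem l, fun x => ?_⟩
    rw [List.nil_append, el_cons, el_nil]
    simp [pe]
  | cons y v ih =>
    obtain ⟨π, h1, h2⟩ := ih
    by_cases h : y = pt (ty l)
    · exact ⟨π, h1, fun x => by
        rw [List.cons_append, el_cons, el_cons, if_pos h, if_pos h, h2]; rfl⟩
    · exact ⟨1, one_mem _, fun x => by
        rw [List.cons_append, el_cons, el_cons, if_neg h, if_neg h]; rfl⟩

lemma head_W (h : PT) (hh : h ∈ WW) : ∃ π ∈ alternatingGroup X, ∀ x w, ∃ w',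
    h (x :: w) = π x :: w' := by
  obtain ⟨π, h1, h2⟩ := hh.2 []
  refine ⟨π, h1, fun x w => ?_⟩
  induction w using List.reverseRecOn with
  | nil => exact ⟨[], by simpa [hh.1] using h2 x⟩
  | append_singleton w y ih =>
    obtain ⟨w', hw⟩ := ih
    obtain ⟨ρ, _, h4⟩ := hh.2 (x :: w)
    exact ⟨w' ++ [ρ y], by rw [← List.cons_append, h4, hw]; rfl⟩

lemma decomp (h : PT) (hh : h ∈ WW) (h1 : ∀ x, h [x] = [x]) (x : X) :
    ∃ f ∈ WW, ∀ w, h (x :: w) = x :: f w := by
  have key : ∀ g ∈ WW, (∀ x, g [x] = [x]) → ∀ w, g (x :: w) = x :: (g (x :: w)).tail := by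
    intro g hg h1 w
    obtain ⟨π, _, h3⟩ := head_W g hg
    obtain ⟨w', hw⟩ := h3 x w
    obtain ⟨w'', hw'⟩ := h3 x []
    rw [h1] at hw'
    have : π x = x := by simpa using (List.cons.inj hw').1.symm
    rw [hw, this]; rfl
  have k1 := key h hh h1
  have k2 := key h⁻¹ (inv_mem hh) fun x => by rw [Equiv.Perm.inv_eq_iff_eq, h1]
  refine ⟨⟨fun w => (h (x :: w)).tail, fun w => (h⁻¹ (x :: w)).tail, fun w => ?_, fun w => ?_⟩,
    ⟨?_, fun v => ?_⟩, k1⟩
  · show (h⁻¹ (x :: (h (x :: w)).tail)).tail = w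
    rw [← k1]; simp
  · show (h (x :: (h⁻¹ (x :: w)).tail)).tail = w
    rw [← k2]; simp
  · show (h [x]).tail = []
    rw [h1]; rfl
  · obtain ⟨π, a1, a2⟩ := hh.2 (x :: v)
    refine ⟨π, a1, fun y => ?_⟩
    show (h (x :: (v ++ [y]))).tail = (h (x :: v)).tail ++ [π y]
    rw [← List.cons_append, a2, k1 v]; rfl

end Pool.Agent.H.MP_092669_al
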