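import Pool.Agent.H.MP_092669_al.Defs

set_option autoImplicit false

namespace Pool.Agent.H.MP_092669_al

def GG : Subgroup PT := Subgroup.closure {el 0, el 1}

lemma el_GG (l : Lt) : el l ∈ GG := by
  have h0 : el 0 ∈ GG := Subgroup.subset_closure (by simp)
  have h1 : el 1 ∈ GG := Subgroup.subset_closure (by simp)
  fin_cases l
  · exact h0
  · exact h1
  · have := el_iv 1
    show el (iv 1) ∈ GG
    rw [this]; exact inv_mem h1
  · show el 3 ∈ GG
    rw [el_triv 3 rfl]; exact one_mem _
  · show el 4 ∈ GG
    rw [el_triv 4 rfl]; exact one_mem _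

lemma ev_GG (w : Wd) : ev w ∈ GG := by
  induction w with
  | nil => exact one_mem _
  | cons l w ih => rw [ev_cons]; exact mul_mem (el_GG l) ih

lemma GG_le : GG ≤ WW := by
  rw [GG, Subgroup.closure_le]
  rintro g (rfl | rfl) <;> exact el_mem _

def atF (x : X) (u : T → T) : T → T
  | [] => []
  | z :: w => z :: (if z = x then u w else w)

def atH (x : X) : PT →* PT where
  toFun u := ⟨atF x u, atF x (u⁻¹ : PT), fun w => by
      rcases w with _ | ⟨z, w⟩
      · rfl
      · by_cases h : z = x <;> simp [atF, h], fun w => by
      rcases w with _ | ⟨z, w⟩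
      · rfl
      · by_cases h : z = x <;> simp [atF, h]⟩
  map_one' := Equiv.ext fun w => by
    rcases w with _ | ⟨z, w⟩
    · rfl
    · show atF x (1 : PT) (z :: w) = z :: w
      simp [atF]
  map_mul' u v := Equiv.ext fun w => by
    rcases w with _ | ⟨z, w⟩
    · rfl
    · show atF x (u * v : PT) (z :: w) = atF x u (atF x v (z :: w))
      by_cases h : z = x <;> simp [atF, h]

lemma atH_nil (x : X) (u : PT) : atH x u [] = [] := rfl
lemma atH_cons (x : X) (u : PT) (z : X) (w : T) :
    atH x u (z :: w) = z :: (if z = x then u w else w) := rfl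

def Rel (x y : X) (g : PT) : Prop := ∃ h ∈ GG, ∀ w, h (x :: w) = y :: g w

lemma Rel.comp {x y z : X} {g g' : PT} (h1 : Rel x y g) (h2 : Rel y z g') : Rel x z (g' * g) := by
  obtain ⟨h, a1, a2⟩ := h1
  obtain ⟨k, b1, b2⟩ := h2
  exact ⟨k * h, mul_mem b1 a1, fun w => by simp [a2, b2]⟩

lemma Rel.inv {x y : X} {g : PT} (h1 : Rel x y g) : Rel y x g⁻¹ := by
  obtain ⟨h, a1, a2⟩ := h1
  exact ⟨h⁻¹, inv_mem a1, fun w => by rw [Equiv.Perm.inv_eq_iff_eq, a2]; simp⟩

lemma rel_word (w : Wd) (x : X) : Rel x (top w x) (ev (red (sec w x))) :=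
  ⟨ev w, ev_GG w, fun v => by rw [ev_apply, ev_red]⟩

lemma rel_one (y : X) : Rel 4 y 1 := by
  fin_cases y
  · exact rel_word [1] 4
  · exact rel_word [0, 1] 4
  · exact rel_word [2] 4
  · exact rel_word [0, 2] 4
  · exact rel_word [] 4

lemma rel_all (g : PT) (hg : g ∈ GG) (y : X) : Rel 4 y g := by
  have : Rel 4 4 g := by
    induction hg using Subgroup.closure_induction with
    | mem x hx =>
      rcases hx with rfl | rfl
      · have := rel_word [0] 4
        rwa [show red (sec [0] 4) = [0] from rfl, ev_cons, ev_nil, mul_one] at this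
      · have h1 := rel_word [1] 1
        rw [show red (sec [1] 1) = [1] from rfl, ev_cons, ev_nil, mul_one] at h1
        have := ((rel_one 1).comp h1).comp (rel_one 1).inv
        simpa using this
    | one => exact rel_one 4
    | mul x y _ _ hx hy => exact hy.comp hx
    | inv x _ hx => exact hx.inv
  simpa using this.comp (rel_one y)

lemma conj_at (x y : X) (g h k : PT) (H : ∀ w, h (x :: w) = y :: g w) :
    atH y (g * k * g⁻¹) = h * atH x k * h⁻¹ := by
  rw [eq_mul_inv_iff_mul_eq]
  refine Equiv.ext fun v => ?_
  simp only [Equiv.Perm.mul_apply]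
  by_cases hv : ∃ w, v = x :: w
  · obtain ⟨w, rfl⟩ := hv
    rw [H, atH_cons, atH_cons, if_pos rfl, if_pos rfl, H]; simp
  · have h1 : atH x k v = v := by
      rcases v with _ | ⟨z, w⟩
      · rfl
      · rw [atH_cons, if_neg]
        rintro rfl; exact hv ⟨w, rfl⟩
    rw [h1]
    rcases hh : h v with _ | ⟨z, w⟩
    · rfl
    · rw [atH_cons, if_neg]
      rintro rfl
      apply hv
      refine ⟨g⁻¹ w, h.injective ?_⟩
      rw [H, hh]; simp

def kw : Wd := [2, 0, 1, 0, 2, 0, 1, 0]

def KK : Subgroup PT := Subgroup.closure {u | ∃ g ∈ GG, u = g * ev kw * g⁻¹}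

lemma KK_le : KK ≤ GG := by
  rw [KK, Subgroup.closure_le]
  rintro u ⟨g, hg, rfl⟩
  exact mul_mem (mul_mem hg (ev_GG _)) (inv_mem hg)

lemma KK_conj (h : PT) (hh : h ∈ GG) (u : PT) (hu : u ∈ KK) : h * u * h⁻¹ ∈ KK := by
  induction hu using Subgroup.closure_induction with
  | mem x hx =>
    obtain ⟨g, hg, rfl⟩ := hx
    exact Subgroup.subset_closure ⟨h * g, mul_mem hh hg, by group⟩
  | one => simp
  | mul x y _ _ hx hy =>
    have := mul_mem hx hy
    rwa [show h * x * h⁻¹ * (h * y * h⁻¹) = h * (x * y) * h⁻¹ by group] at this
  | inv x _ hx =>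
    have := inv_mem hx
    rwa [show (h * x * h⁻¹)⁻¹ = h * x⁻¹ * h⁻¹ by group] at this

def winv : Wd → Wd
  | [] => []
  | l :: w => winv w ++ [iv l]

lemma ev_winv (w : Wd) : ev (winv w) = (ev w)⁻¹ := by
  induction w with
  | nil => simp [winv, ev]
  | cons l w ih => rw [winv, ev_append, ih, ev_cons, ev_cons, ev_nil, el_iv]; group

def cj (u : Wd) : Wd := u ++ kw ++ winv u

lemma cj_mem (u : Wd) : ev (cj u) ∈ KK :=
  Subgroup.subset_closure ⟨ev u, ev_GG u, by rw [cj, ev_append, ev_append, ev_winv]⟩

def tw : Wd := cj [] ++ cj [0, 2, 0, 1, 0, 2] ++ cj [0, 2]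

lemma tw_spec : ∀ y, top tw y = y ∧ red (sec tw y) = if y = 4 then kw else [] := by
  decide +kernel

lemma at_kw : atH 4 (ev kw) ∈ KK := by
  have : atH 4 (ev kw) = ev tw := by
    refine Equiv.ext fun v => ?_
    rcases v with _ | ⟨z, w⟩
    · rw [ev_apply_nil]; rfl
    · rw [ev_apply, atH_cons, (tw_spec z).1, ← ev_red (sec tw z), (tw_spec z).2]
      split_ifs <;> rfl
  rw [this, tw, ev_append, ev_append]
  exact mul_mem (mul_mem (cj_mem _) (cj_mem _)) (cj_mem _)

lemma at_KK (y : X) (u : PT) (hu : u ∈ KK) : atH y u ∈ KK := by
  induction hu using Subgroup.closure_induction with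
  | mem x hx =>
    obtain ⟨g, hg, rfl⟩ := hx
    obtain ⟨h, h1, h2⟩ := rel_all g hg y
    rw [conj_at 4 y g h _ h2]
    exact KK_conj h h1 _ at_kw
  | one => simp
  | mul x y _ _ hx hy => rw [map_mul]; exact mul_mem hx hy
  | inv x _ hx => rw [map_inv]; exact inv_mem hx

def kb : List Bool → Wd
  | [] => []
  | b :: l => cj (if b then [1] else []) ++ kb l

lemma kb_mem (l : List Bool) : ev (kb l) ∈ KK := by
  induction l with
  | nil => exact one_mem _
  | cons b l ih => rw [kb, ev_append]; exact mul_mem (cj_mem _) ih

def tab : List (List Bool) := [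
  [],
  [false],
  [true],
  [false, false],
  [true, false],
  [false, true],
  [true, true],
  [false, false, false],
  [true, false, false],
  [false, true, false],
  [true, true, false],
  [false, false, true],
  [false, true, true],
  [true, true, true],
  [false, false, false, false],
  [true, false, false, false],
  [false, true, false, false],
  [true, true, false, false],
  [false, false, true, false],
  [true, true, true, false],
  [false, false, false, true],
  [false, false, true, true],
  [false, true, true, true],
  [true, true, true, true],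
  [true, false, false, false, false],
  [false, true, false, false, false],
  [true, true, false, false, false],
  [true, true, true, false, false],
  [false, false, false, true, false],
  [false, true, true, true, false],
  [true, true, true, true, false],
  [false, false, false, false, true],
  [true, false, false, false, true],
  [false, false, false, true, true],
  [false, false, true, true, true],
  [false, true, true, true, true],
  [false, true, false, false, false, false],
  [true, true, false, false, false, false],
  [true, true, true, false, false, false],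
  [false, true, true, true, false, false],
  [true, true, true, true, false, false],
  [false, false, false, false, true, false],
  [false, false, true, true, true, false],
  [false, true, true, true, true, false],
  [true, false, false, false, false, true],
  [true, true, false, false, false, true],
  [false, false, false, false, true, true],
  [true, false, false, false, true, true],
  [false, false, false, true, true, true],
  [false, false, true, true, true, true],
  [false, true, true, true, false, false, false],
  [false, false, true, true, true, false, false],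
  [false, true, true, true, true, false, false],
  [false, false, false, true, true, true, false],
  [false, false, true, true, true, true, false],
  [true, true, false, false, false, false, true],
  [true, true, true, false, false, false, true],
  [true, false, false, false, false, true, true],
  [true, false, false, false, true, true, true],
  [true, false, false, false, true, true, true, false]]

lemma tab_spec : ∀ π : Equiv.Perm X, Equiv.Perm.sign π = 1 →
    ∃ l ∈ tab, ∀ x, top (kb l) x = π x := by
  decide +kernel

lemma dense (n : ℕ) : ∀ h ∈ WW, ∃ g ∈ KK, ∀ v : T, v.length ≤ n → g v = h v := by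
  induction n with
  | zero =>
    intro h hh
    refine ⟨1, one_mem _, fun v hv => ?_⟩
    have : v = [] := List.length_eq_zero_iff.1 (by omega)
    rw [this, hh.1]; rfl
  | succ n ih =>
    intro h hh
    obtain ⟨π, h1, h2⟩ := hh.2 []
    obtain ⟨l, _, hl⟩ := tab_spec π (Equiv.Perm.mem_alternatingGroup.1 h1)
    have hk := kb_mem l
    have hW : (ev (kb l))⁻¹ * h ∈ WW := mul_mem (inv_mem (GG_le (KK_le hk))) hh
    have hfix : ∀ x, ((ev (kb l))⁻¹ * h) [x] = [x] := by
      intro x
      have := h2 x
      rw [List.nil_append, hh.1, List.nil_append] at this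
      rw [Equiv.Perm.mul_apply, Equiv.Perm.inv_eq_iff_eq, this, ev_apply, ev_apply_nil, hl]
    choose f hf1 hf2 using decomp _ hW hfix
    choose k hk1 hk2 using fun x => ih (f x) (hf1 x)
    refine ⟨ev (kb l) * (atH 0 (k 0) * atH 1 (k 1) * atH 2 (k 2) * atH 3 (k 3) * atH 4 (k 4)),
      mul_mem hk (mul_mem (mul_mem (mul_mem (mul_mem (at_KK _ _ (hk1 _)) (at_KK _ _ (hk1 _)))
        (at_KK _ _ (hk1 _))) (at_KK _ _ (hk1 _))) (at_KK _ _ (hk1 _))), fun v hv => ?_⟩
    rw [Equiv.Perm.mul_apply, ← Equiv.Perm.eq_inv_iff_eq, ← Equiv.Perm.mul_apply (ev (kb l))⁻¹]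
    rcases v with _ | ⟨z, w⟩
    · rw [hW.1]; rfl
    · rw [hf2, ← hk2 z w (by simpa using hv)]
      fin_cases z <;> simp [Equiv.Perm.mul_apply, atH_cons]

end Pool.Agent.H.MP_092669_al
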