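import Pool.Agent.H.MP_092669_al.Defs

set_option autoImplicit false

namespace Pool.Agent.H.MP_092669_al

open Finset

abbrev St := X → Bool

def upd (l : Lt) (c : St) : St :=
  if triv l = true then c else fun p => if pl (iv l) p = pt (ty l) then ty l else c (pl (iv l) p)

def st : Wd → St
  | [] => fun _ => true
  | l :: w => upd l (st w)

def mg (l : Lt) (c : St) : ℕ := if triv l = true then 1 else if c (pt (ty l)) = ty l then 1 else 0

def MG : Wd → ℕ
  | [] => 0
  | l :: w => MG w + mg l (st w)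

def pred (c : St) : Lt := if c 4 = true then 0 else if c 2 = true then 1 else 2

def BD : Wd → ℕ
  | [] => 0
  | l :: w => BD w + if l = pred (st w) then 0 else 1

def Phi (c : St) : ℕ :=
  if c 1 = false then 1 + (if c 0 = true ∧ c 2 = false ∧ c 4 = true then 1 else 0)
  else if c 0 = false ∧ c 4 = true then 1 else 0

lemma phi_step : ∀ (c : St) (l : Lt),
    (if l = pred c then 0 else 1) + Phi (upd l c) ≤ 3 * mg l c + Phi c := by
  decide +kernel

lemma BD_le (w : Wd) : BD w + Phi (st w) ≤ 3 * MG w := by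
  induction w with
  | nil => simp [BD, MG, st, Phi]
  | cons l w ih =>
    have := phi_step (st w) l
    simp only [BD, MG, st]
    omega

lemma top_inj (w : Wd) : Function.Injective (top w) := by
  induction w with
  | nil => exact fun _ _ h => h
  | cons l w ih =>
    intro x y h
    apply ih
    have := congrArg (pl (iv l)) h
    simpa only [top, iv_pl] using this

lemma sec_head (w : Wd) (x : X) : ∃ h u, sec w x = h :: u ∧ ty h = st w (top w x) := by
  induction w with
  | nil => exact ⟨4, [], rfl, rfl⟩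
  | cons l w ih =>
    obtain ⟨h, u, h1, h2⟩ := ih
    simp only [sec, st, top, upd]
    by_cases a : triv l = true
    · simp only [a, if_true, pl_triv l a]
      exact ⟨h, u, h1, h2⟩
    · simp only [a, if_false, iv_pl, Bool.false_eq_true]
      by_cases b : top w x = pt (ty l)
      · simp only [b, if_true, h1, push]
        split_ifs with e
        · exact ⟨_, _, rfl, ty_mu l h e⟩
        · exact ⟨_, _, rfl, rfl⟩
      · simp only [b, if_false]
        exact ⟨h, u, h1, h2⟩

lemma sum_len (w : Wd) : ∑ x, (sec w x).length + MG w ≤ w.length + 5 := by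
  induction w with
  | nil => simp [sec, MG]
  | cons l w ih =>
    have key : ∀ x, (sec (l :: w) x).length ≤ (sec w x).length +
        if top w x = pt (ty l) then 1 - mg l (st w) else 0 := by
      intro x
      obtain ⟨h, u, h1, h2⟩ := sec_head w x
      simp only [sec, mg]
      by_cases a : triv l = true
      · simp [a]
      · simp only [a, if_false, Bool.false_eq_true]
        by_cases b : top w x = pt (ty l)
        · simp only [b, if_true, h1, push]
          rw [← b, ← h2]
          split_ifs <;> simp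
        · simp [b]
    have h1 := sum_le_sum (s := univ) fun x _ => key x
    rw [sum_add_distrib, ← sum_filter, sum_const, smul_eq_mul] at h1
    have h2 : (univ.filter fun x => top w x = pt (ty l)).card ≤ 1 :=
      card_le_one.2 fun a ha b hb => top_inj w (by
        rw [(mem_filter.1 ha).2, (mem_filter.1 hb).2])
    have h3 : mg l (st w) ≤ 1 := by unfold mg; split_ifs <;> omega
    have h4 := Nat.mul_le_mul_right (1 - mg l (st w)) h2
    simp only [MG, List.length_cons]
    omega

def allW : ℕ → Finset Wd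
  | 0 => {[]}
  | n + 1 => insert [] ((allW n ×ˢ (univ : Finset Lt)).image fun p => p.2 :: p.1)

lemma mem_allW (w : Wd) : ∀ n, w.length ≤ n → w ∈ allW n := by
  induction w with
  | nil => intro n _; cases n <;> simp [allW]
  | cons l w ih =>
    intro n h
    rcases n with _ | n
    · simp at h
    · simp only [allW, mem_insert, mem_image]
      exact Or.inr ⟨(w, l), by simpa using ih n (by simpa using h), rfl⟩

lemma len_allW (n : ℕ) : ∀ w ∈ allW n, w.length ≤ n := by
  induction n with
  | zero => intro w h; simp [allW] at h; simp [h]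
  | succ n ih =>
    intro w h
    simp only [allW, mem_insert, mem_image, mem_product] at h
    rcases h with rfl | ⟨p, hp, rfl⟩
    · simp
    · simpa using ih _ hp.1

lemma sum_lt (x : ℝ) (k : Lt) : (∑ i : Lt, x ^ if i = k then 0 else 1) = 1 + 4 * x := by
  fin_cases k <;> simp [Fin.sum_univ_five] <;> ring

lemma wsum (x : ℝ) (hx : 0 < x) (n : ℕ) :
    ∑ w ∈ allW n, x ^ BD w + 1 / (4 * x) ≤ (1 + 1 / (4 * x)) * (1 + 4 * x) ^ n := by
  induction n with
  | zero => simp [allW, BD]
  | succ n ih =>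
    have h1 : ∑ w ∈ allW (n + 1), x ^ BD w ≤ 1 + (1 + 4 * x) * ∑ w ∈ allW n, x ^ BD w := by
      have hn : ([] : Wd) ∉ (allW n ×ˢ (univ : Finset Lt)).image fun p => p.2 :: p.1 := by simp
      rw [allW, sum_insert hn, sum_image (fun p _ q _ h => by
        obtain ⟨h1, h2⟩ := List.cons.inj h
        exact Prod.ext h2 h1), sum_product, mul_sum]
      simp only [BD, pow_zero]
      refine add_le_add le_rfl (sum_le_sum fun w _ => le_of_eq ?_)
      simp only [pow_add, ← mul_sum]
      rw [mul_comm]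
      congr 1
      exact sum_lt x _
    have h2 := mul_le_mul_of_nonneg_left ih (show 0 ≤ 1 + 4 * x by positivity)
    have h3 : (1 + 4 * x) * (1 / (4 * x)) = 1 + 1 / (4 * x) := by field_simp; ring
    rw [pow_succ]
    nlinarith

lemma few_bad (η : ℝ) (hη : 0 < η) : ∃ ε : ℝ, 0 < ε ∧ ε ≤ 1 ∧ ∃ C : ℝ, ∀ n : ℕ,
    (((allW n).filter fun w => (BD w : ℝ) ≤ ε * n).card : ℝ) ≤ C * Real.exp (η * n) := by
  set x : ℝ := min (η / 8) (1 / 2) with hx
  have hx0 : 0 < x := by positivity
  have hx1 : x ≤ 1 / 2 := min_le_right _ _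
  have hx2 : x ≤ η / 8 := min_le_left _ _
  set ε : ℝ := min 1 (η / 2 * x) with hε
  have hε0 : 0 < ε := by positivity
  refine ⟨ε, hε0, min_le_left _ _, 1 + 1 / (4 * x), fun n => ?_⟩
  have h1 := wsum x hx0 n
  have h2 : ∀ w ∈ (allW n).filter fun w => (BD w : ℝ) ≤ ε * n,
      Real.exp (-(η / 2 * n)) ≤ x ^ BD w := by
    intro w hw
    have a1 := (mem_filter.1 hw).2
    have a2 : Real.exp (-(1 / x)) ≤ x := by
      rw [Real.exp_neg, inv_le_comm₀ (Real.exp_pos _) hx0]
      have := Real.add_one_le_exp (1 / x)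
      rw [← one_div]; linarith
    refine le_trans ?_ (pow_le_pow_left₀ (Real.exp_pos _).le a2 _)
    rw [← Real.exp_nat_mul, Real.exp_le_exp]
    have a3 : ε * n ≤ η / 2 * x * n := mul_le_mul_of_nonneg_right (min_le_right _ _) (by positivity)
    have a4 : (BD w : ℝ) * (1 / x) ≤ η / 2 * n := by
      rw [mul_one_div, div_le_iff₀ hx0]; linarith
    linarith
  have h3 := card_nsmul_le_sum _ _ _ h2
  rw [nsmul_eq_mul] at h3
  have h4 : ∑ w ∈ (allW n).filter (fun w => (BD w : ℝ) ≤ ε * n), x ^ BD w ≤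
      ∑ w ∈ allW n, x ^ BD w :=
    sum_le_sum_of_subset_of_nonneg (filter_subset _ _) fun _ _ _ => by positivity
  have h5 : (1 + 4 * x) ^ n ≤ Real.exp (η / 2 * n) := by
    rw [mul_comm (η / 2), Real.exp_nat_mul]
    refine pow_le_pow_left₀ (by positivity) ?_ _
    have := Real.add_one_le_exp (η / 2)
    linarith
  have h6 : 0 < 1 / (4 * x) := by positivity
  have h7 := mul_le_mul_of_nonneg_left h5 (show 0 ≤ 1 + 1 / (4 * x) by positivity)
  have h8 : (((allW n).filter fun w => (BD w : ℝ) ≤ ε * n).card : ℝ) * Real.exp (-(η / 2 * n)) ≤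
      (1 + 1 / (4 * x)) * Real.exp (η / 2 * n) := by linarith
  rw [Real.exp_neg, ← div_eq_mul_inv, div_le_iff₀ (Real.exp_pos _), mul_assoc, ← Real.exp_add] at h8
  rwa [show η / 2 * n + η / 2 * n = η * n by ring] at h8

open Classical in
noncomputable def BF (n : ℕ) : Finset PT := (allW n).image ev

def PP (s : ℝ) : Prop := ∃ C : ℝ, 0 ≤ C ∧ ∀ n : ℕ, ((BF n).card : ℝ) ≤ C * Real.exp (s * n)

lemma PP.mono {s t : ℝ} (h : PP s) (hst : s ≤ t) : PP t := by
  obtain ⟨C, h0, h1⟩ := h
  refine ⟨C, h0, fun n => (h1 n).trans ?_⟩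
  gcongr

open Classical in
lemma PP_four : PP 4 := by
  refine ⟨1 + 1 / (4 * 1), by norm_num, fun n => ?_⟩
  have h1 := wsum 1 one_pos n
  simp only [one_pow, sum_const, nsmul_eq_mul, mul_one] at h1
  have h2 : ((BF n).card : ℝ) ≤ (allW n).card := by
    unfold BF; exact_mod_cast card_image_le
  have h3 : (1 + 4 : ℝ) ^ n ≤ Real.exp (4 * n) := by
    rw [mul_comm, Real.exp_nat_mul]
    refine pow_le_pow_left₀ (by positivity) ?_ _
    have := Real.add_one_le_exp 4
    linarith
  generalize (1 + 4 : ℝ) ^ n = z at h1 h3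
  norm_num at h1 ⊢
  linarith

open Classical in
lemma card_short (s C : ℝ) (hs : 0 ≤ s) (hC : 0 ≤ C)
    (h : ∀ n : ℕ, ((BF n).card : ℝ) ≤ C * Real.exp (s * n)) (N : ℕ) (F : Finset PT)
    (hF : ∀ g ∈ F, ∃ w, ev w = g ∧ ∑ x, (sec w x).length ≤ N) :
    (F.card : ℝ) ≤ 5 ^ 5 * ((N + 1) ^ 5 * (C ^ 5 * Real.exp (s * N))) := by
  choose! W hW using hF
  set I : Finset (X → ℕ) := (Fintype.piFinset fun _ : X => range (N + 1)).filter
    fun m => ∑ x, m x ≤ N with hI
  have h1 : F.card ≤ ((univ : Finset (X → X)) ×ˢ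
      (I.biUnion fun m => Fintype.piFinset fun x => BF (m x))).card := by
    refine card_le_card_of_injOn (fun g => (top (W g), fun x => ev (sec (W g) x))) ?_ ?_
    · intro g hg
      simp only [coe_product, coe_univ, Set.mem_prod, Set.mem_univ, true_and, mem_coe,
        mem_biUnion, Fintype.mem_piFinset]
      refine ⟨fun x => (sec (W g) x).length, ?_, fun x => ?_⟩
      · simp only [hI, mem_filter, Fintype.mem_piFinset, mem_range]
        refine ⟨fun x => ?_, (hW g hg).2⟩
        have := single_le_sum (f := fun x => (sec (W g) x).length) (fun _ _ => Nat.zero_le _)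
          (mem_univ x)
        have := (hW g hg).2
        omega
      · exact mem_image_of_mem _ (mem_allW _ _ le_rfl)
    · intro g hg g' hg' e
      simp only [Prod.mk.injEq] at e
      rw [← (hW g hg).1, ← (hW g' hg').1]
      refine Equiv.ext fun v => ?_
      rcases v with _ | ⟨z, v⟩
      · rw [ev_apply_nil, ev_apply_nil]
      · rw [ev_apply, ev_apply, e.1, congrFun e.2 z]
  rw [card_product] at h1
  have h2 : ((I.biUnion fun m => Fintype.piFinset fun x => BF (m x)).card : ℝ) ≤
      ∑ m ∈ I, ∏ x, ((BF (m x)).card : ℝ) := by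
    have := card_biUnion_le (s := I) (t := fun m => Fintype.piFinset fun x => BF (m x))
    simp only [Fintype.card_piFinset] at this
    exact_mod_cast this
  have h3 : ∀ m ∈ I, ∏ x, ((BF (m x)).card : ℝ) ≤ C ^ 5 * Real.exp (s * N) := by
    intro m hm
    refine (prod_le_prod (fun _ _ => by positivity) fun x _ => h (m x)).trans ?_
    rw [prod_mul_distrib, prod_const, card_univ, Fintype.card_fin, ← Real.exp_sum, ← mul_sum]
    have : ∑ x, (m x : ℝ) ≤ N := by exact_mod_cast (mem_filter.1 hm).2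
    gcongr
  have h4 := sum_le_card_nsmul _ _ _ h3
  rw [nsmul_eq_mul] at h4
  have h5 : (I.card : ℝ) ≤ (N + 1) ^ 5 := by
    have := card_filter_le (Fintype.piFinset fun _ : X => range (N + 1)) fun m => ∑ x, m x ≤ N
    rw [Fintype.card_piFinset] at this
    simp only [card_range, prod_const, card_univ, Fintype.card_fin] at this
    exact_mod_cast this
  have h6 : (F.card : ℝ) ≤ 5 ^ 5 *
      ((I.biUnion fun m => Fintype.piFinset fun x => BF (m x)).card : ℝ) := by
    simp only [card_univ, Fintype.card_fun, Fintype.card_fin] at h1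
    exact_mod_cast h1
  refine h6.trans ?_
  gcongr
  refine (h2.trans h4).trans ?_
  gcongr

open Classical in
lemma PP_step (η : ℝ) (hη : 0 < η) : ∃ θ : ℝ, 0 < θ ∧ ∀ s, η ≤ s → PP s → PP (s - θ) := by
  obtain ⟨ε, e0, e1, C1, hC1⟩ := few_bad (η / 2) (by positivity)
  set θ : ℝ := ε * η / 6 with hθ
  have hθ0 : 0 < θ := by positivity
  refine ⟨θ, hθ0, fun s hs ⟨C, hC, h⟩ => ?_⟩
  have hs0 : 0 ≤ s := by linarith
  refine ⟨|C1| + 5 ^ 5 * ((6 + 5 / θ) ^ 5 * (C ^ 5 * Real.exp (s * 5))), by positivity, fun n => ?_⟩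
  set N : ℕ := n + 5 - ⌈ε * n / 3⌉₊ with hN
  set F := (BF n).filter fun g => ∃ w, ev w = g ∧ ∑ x, (sec w x).length ≤ N with hF
  have h1 : BF n ⊆ ((allW n).filter fun w => (BD w : ℝ) ≤ ε * n).image ev ∪ F := by
    intro g hg
    obtain ⟨w, hw, rfl⟩ := mem_image.1 hg
    by_cases hb : (BD w : ℝ) ≤ ε * n
    · exact mem_union_left _ (mem_image_of_mem _ (mem_filter.2 ⟨hw, hb⟩))
    · refine mem_union_right _ (mem_filter.2 ⟨hg, w, rfl, ?_⟩)
      have a1 := sum_len w
      have a2 := len_allW n w hw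
      have a3 := BD_le w
      have a4 : ⌈ε * n / 3⌉₊ ≤ MG w := by
        rw [Nat.ceil_le]
        have : (BD w : ℝ) ≤ 3 * MG w := by exact_mod_cast (by omega : BD w ≤ 3 * MG w)
        linarith
      omega
  have h2 : ((BF n).card : ℝ) ≤ ((allW n).filter fun w => (BD w : ℝ) ≤ ε * n).card + F.card := by
    have := (card_le_card h1).trans ((card_union_le _ _).trans
      (Nat.add_le_add_right card_image_le _))
    exact_mod_cast this
  have h3 := card_short s C hs0 hC h N F fun g hg => (mem_filter.1 hg).2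
  have h4 := hC1 n
  have hn0 : (0 : ℝ) ≤ n := by positivity
  have h5 : C1 * Real.exp (η / 2 * n) ≤ |C1| * Real.exp ((s - θ) * n) := by
    refine (mul_le_mul_of_nonneg_right (le_abs_self C1) (Real.exp_pos _).le).trans ?_
    have : η / 2 ≤ s - θ := by rw [hθ]; nlinarith
    gcongr
  have hN1 : (N : ℝ) ≤ n + 5 - ε * n / 3 := by
    have b1 : ⌈ε * n / 3⌉₊ ≤ n + 5 := by
      rw [Nat.ceil_le]; push_cast; nlinarith
    rw [hN, Nat.cast_sub b1]
    have := Nat.le_ceil (ε * n / 3)
    push_cast; linarith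
  have h6 : (N : ℝ) + 1 ≤ (6 + 5 / θ) * Real.exp (θ / 5 * n) := by
    have b1 := Real.add_one_le_exp (θ / 5 * n)
    have b2 : 1 ≤ Real.exp (θ / 5 * n) := Real.one_le_exp (by positivity)
    have b3 : 5 / θ * (θ / 5 * n) = n := by field_simp
    have b4 := mul_le_mul_of_nonneg_left (show θ / 5 * n ≤ Real.exp (θ / 5 * n) by linarith)
      (show 0 ≤ 5 / θ by positivity)
    have b5 : 0 ≤ ε * n / 3 := by positivity
    nlinarith
  have h7 : ((N : ℝ) + 1) ^ 5 ≤ (6 + 5 / θ) ^ 5 * Real.exp (θ * n) := by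
    refine (pow_le_pow_left₀ (by positivity) h6 5).trans (le_of_eq ?_)
    rw [mul_pow, ← Real.exp_nat_mul]
    congr 2; push_cast; ring
  have h8 : Real.exp (s * N) * Real.exp (θ * n) ≤ Real.exp (s * 5) * Real.exp ((s - θ) * n) := by
    rw [← Real.exp_add, ← Real.exp_add, Real.exp_le_exp]
    have b1 := mul_le_mul_of_nonneg_left hN1 hs0
    have b2 : η * (ε * n) ≤ s * (ε * n) := mul_le_mul_of_nonneg_right hs (by positivity)
    rw [hθ]; nlinarith
  have h9 : ((N : ℝ) + 1) ^ 5 * (C ^ 5 * Real.exp (s * N)) ≤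
      (6 + 5 / θ) ^ 5 * (C ^ 5 * Real.exp (s * 5)) * Real.exp ((s - θ) * n) := by
    calc _ ≤ (6 + 5 / θ) ^ 5 * Real.exp (θ * n) * (C ^ 5 * Real.exp (s * N)) := by gcongr
      _ = (6 + 5 / θ) ^ 5 * C ^ 5 * (Real.exp (s * N) * Real.exp (θ * n)) := by ring
      _ ≤ (6 + 5 / θ) ^ 5 * C ^ 5 * (Real.exp (s * 5) * Real.exp ((s - θ) * n)) := by gcongr
      _ = _ := by ring
  nlinarith

lemma PP_all (η : ℝ) (hη : 0 < η) : PP η := by
  obtain ⟨θ, h0, h⟩ := PP_step η hη
  have key : ∀ k : ℕ, ∀ s, s ≤ η + k * θ → PP s → PP η := by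
    intro k
    induction k with
    | zero => intro s hs hp; exact hp.mono (by simpa using hs)
    | succ k ih =>
      intro s hs hp
      by_cases h1 : s ≤ η
      · exact hp.mono h1
      · exact ih (s - θ) (by push_cast at hs; linarith) (h s (by linarith) hp)
  obtain ⟨k, hk⟩ := exists_nat_ge (4 / θ)
  refine key k 4 ?_ PP_four
  rw [div_le_iff₀ h0] at hk
  linarith

lemma tends (γ : ℕ → ℕ) (h1 : ∀ n, 1 ≤ γ n) (h2 : ∀ n, γ n ≤ (BF n).card) :
    Filter.Tendsto (fun r : ℕ => (γ r : ℝ) ^ (1 / (r : ℝ))) Filter.atTop (nhds 1) := by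
  rw [tendsto_order]
  constructor
  · intro a ha
    refine Filter.Eventually.of_forall fun r => ha.trans_le ?_
    exact Real.one_le_rpow (by exact_mod_cast h1 r) (by positivity)
  · intro a ha
    have hl : 0 < Real.log a := Real.log_pos ha
    obtain ⟨C, hC, h⟩ := PP_all (Real.log a / 4) (by positivity)
    obtain ⟨N, hN⟩ := exists_nat_ge (C / (Real.log a / 4))
    rw [div_le_iff₀ (by positivity)] at hN
    filter_upwards [Filter.eventually_ge_atTop (N + 1)] with r hr
    have hr' : (N : ℝ) + 1 ≤ r := by exact_mod_cast hr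
    have hr0 : (0 : ℝ) < r := by linarith [show (0 : ℝ) ≤ N by positivity]
    have a1 : C ≤ Real.exp (Real.log a / 4 * r) := by
      have := Real.add_one_le_exp (Real.log a / 4 * r)
      nlinarith
    have a2 : (γ r : ℝ) ≤ Real.exp (Real.log a / 2 * r) := by
      have b1 : (γ r : ℝ) ≤ (BF r).card := by exact_mod_cast h2 r
      refine (b1.trans (h r)).trans ?_
      rw [show Real.log a / 2 * r = Real.log a / 4 * r + Real.log a / 4 * r by ring, Real.exp_add]
      gcongr
    refine (Real.rpow_le_rpow (by positivity) a2 (by positivity)).trans_lt ?_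
    rw [← Real.exp_mul, show Real.log a / 2 * r * (1 / r) = Real.log a / 2 by field_simp]
    calc Real.exp (Real.log a / 2) < Real.exp (Real.log a) := Real.exp_lt_exp.2 (by linarith)
      _ = a := Real.exp_log (by linarith)

end Pool.Agent.H.MP_092669_al
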